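import Pool.Agent.Lib.PNT.Tauber

/-!
# The prime number theorem
-/

namespace PNT

open MeasureTheory Filter Set Topology ArithmeticFunction

/-- `ψ(e^u) e^{-u}`. -/
noncomputable def Hpsi (u : ℝ) : ℝ := Chebyshev.psi (Real.exp u) * Real.exp (-u)

lemma Hpsi_measurable : Measurable Hpsi := by
  unfold Hpsi
  exact (Chebyshev.psi_mono.measurable.comp Real.measurable_exp).mul
    (Real.measurable_exp.comp measurable_neg)

lemma Hpsi_nonneg (u : ℝ) : 0 ≤ Hpsi u := mul_nonneg (Chebyshev.psi_nonneg _) (Real.exp_pos _).le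

lemma Hpsi_le (u : ℝ) : Hpsi u ≤ Real.log 4 + 4 := by
  unfold Hpsi
  have h := Chebyshev.psi_le_const_mul_self (Real.exp_pos u).le
  calc Chebyshev.psi (Real.exp u) * Real.exp (-u)
      ≤ (Real.log 4 + 4) * Real.exp u * Real.exp (-u) :=
        mul_le_mul_of_nonneg_right h (Real.exp_pos _).le
    _ = Real.log 4 + 4 := by
        rw [mul_assoc, ← Real.exp_add, add_neg_cancel, Real.exp_zero, mul_one]

lemma Hpsi_neg (u : ℝ) (hu : u ≤ 0) : Hpsi u = 0 := by
  unfold Hpsi
  rw [Chebyshev.psi_eq_zero_of_le_one (Real.exp_le_one_iff.mpr hu), zero_mul]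

lemma Hpsi_mul_exp (u : ℝ) : Hpsi u * Real.exp u = Chebyshev.psi (Real.exp u) := by
  unfold Hpsi
  rw [mul_assoc, ← Real.exp_add, neg_add_cancel, Real.exp_zero, mul_one]

lemma Hpsi_mono (u v : ℝ) (h : u ≤ v) : Hpsi u * Real.exp u ≤ Hpsi v * Real.exp v := by
  rw [Hpsi_mul_exp, Hpsi_mul_exp]
  exact Chebyshev.psi_mono (Real.exp_le_exp.mpr h)

/-- The boundary function. -/
noncomputable def Gfun (s : ℂ) : ℂ :=
  (vonMangoldt.LFunctionResidueClassAux (1 : ZMod 1) (1 + s) - 1) / (1 + s)

lemma Gfun_continuousOn : ContinuousOn Gfun {s | 0 ≤ s.re} := by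
  unfold Gfun
  have h1 : ContinuousOn (fun s : ℂ => vonMangoldt.LFunctionResidueClassAux (1 : ZMod 1) (1 + s))
      {s | 0 ≤ s.re} := by
    apply (vonMangoldt.continuousOn_LFunctionResidueClassAux (1 : ZMod 1)).comp
      (by fun_prop : ContinuousOn (fun s : ℂ => 1 + s) _)
    intro s hs
    simp only [mem_ofPred_eq] at hs ⊢
    simpa using hs
  apply (h1.sub continuousOn_const).div (by fun_prop)
  intro s hs h
  simp only [mem_ofPred_eq] at hs
  have := congrArg Complex.re h
  simp at this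
  linarith

lemma LSeries_eq_Aux {s : ℂ} (hs : 1 < s.re) :
    LSeries (fun n => ((vonMangoldt n : ℝ) : ℂ)) s =
      vonMangoldt.LFunctionResidueClassAux (1 : ZMod 1) s + 1 / (s - 1) := by
  have h := vonMangoldt.eqOn_LFunctionResidueClassAux (q := 1) (a := 1) isUnit_one hs
  rw [h]
  have e : (fun n => ((vonMangoldt.residueClass (1 : ZMod 1) n : ℝ) : ℂ)) =
      fun n => ((vonMangoldt n : ℝ) : ℂ) := by
    funext n
    unfold vonMangoldt.residueClass
    congr 1
    rw [indicator_of_mem]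
    exact Subsingleton.elim _ _
  rw [← e]
  simp

lemma psi_integral {s : ℂ} (hs : 0 < s.re) :
    LSeries (fun n => ((vonMangoldt n : ℝ) : ℂ)) (1 + s) =
      (1 + s) * ∫ u in Ioi (0 : ℝ), ((Hpsi u : ℝ) : ℂ) * Complex.exp (-s * u) := by
  have h1 := LSeries_eq_mul_integral_of_nonneg (fun n => (vonMangoldt n : ℝ)) (r := 1) zero_le_one
    (s := 1 + s) (by simpa using hs) ?_ (fun n => vonMangoldt_nonneg)
  · rw [h1]
    congr 1
    have himg : Real.exp '' Ioi (0 : ℝ) = Ioi 1 := by
      ext x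
      simp only [mem_image, mem_Ioi]
      constructor
      · rintro ⟨u, hu, rfl⟩
        exact Real.one_lt_exp_iff.mpr hu
      · intro hx
        exact ⟨Real.log x, Real.log_pos hx, Real.exp_log (by linarith)⟩
    rw [← himg, integral_image_eq_integral_abs_deriv_smul (f' := Real.exp) measurableSet_Ioi
      (fun x _ => (Real.hasDerivAt_exp x).hasDerivWithinAt) Real.exp_injective.injOn]
    apply setIntegral_congr_fun measurableSet_Ioi
    intro u _
    simp only
    have e1 : (∑ k ∈ Finset.Icc 1 ⌊Real.exp u⌋₊, ((vonMangoldt k : ℝ) : ℂ)) =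
        ((Chebyshev.psi (Real.exp u) : ℝ) : ℂ) := by
      unfold Chebyshev.psi
      push_cast
      apply Finset.sum_congr _ (fun _ _ => rfl)
      ext k
      simp [Nat.one_le_iff_ne_zero, Nat.pos_iff_ne_zero]
    rw [e1, ← Hpsi_mul_exp, abs_of_pos (Real.exp_pos u)]
    have e2 : ((Real.exp u : ℝ) : ℂ) ^ (-(1 + s + 1)) = Complex.exp (-(s + 2) * u) := by
      rw [Complex.cpow_def_of_ne_zero (by exact_mod_cast (Real.exp_pos u).ne'),
        ← Complex.ofReal_log (Real.exp_pos u).le, Real.log_exp]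
      congr 1
      ring
    rw [e2, Complex.real_smul]
    push_cast
    have e3 : Complex.exp (-s * u) = Complex.exp u * Complex.exp u * Complex.exp (-(s + 2) * u) := by
      rw [← Complex.exp_add, ← Complex.exp_add]
      congr 1
      ring
    rw [e3]
    ring
  · rw [Asymptotics.isBigO_iff]
    refine ⟨Real.log 4 + 4, ?_⟩
    filter_upwards with n
    have e1 : (∑ k ∈ Finset.Icc 1 n, vonMangoldt k) = Chebyshev.psi n := by
      unfold Chebyshev.psi
      rw [Nat.floor_natCast]
      apply Finset.sum_congr _ (fun _ _ => rfl)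
      ext k
      simp [Nat.one_le_iff_ne_zero, Nat.pos_iff_ne_zero]
    simp only [Real.rpow_one]
    rw [e1, Real.norm_of_nonneg (Chebyshev.psi_nonneg _), Real.norm_of_nonneg (Nat.cast_nonneg n)]
    exact Chebyshev.psi_le_const_mul_self (Nat.cast_nonneg n)

lemma Hpsi_transform (s : ℂ) (hs : 0 < s.re) :
    ∫ u in Ioi (0 : ℝ), ((Hpsi u - 1 : ℝ) : ℂ) * Complex.exp (-s * u) = Gfun s := by
  have hint1 : IntegrableOn (fun u : ℝ => Complex.exp (-s * u)) (Ioi 0) :=
    integrableOn_exp_mul_complex_Ioi (by simpa using hs) 0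
  have hint2 : IntegrableOn (fun u : ℝ => ((Hpsi u : ℝ) : ℂ) * Complex.exp (-s * u)) (Ioi 0) := by
    refine Integrable.bdd_mul (c := Real.log 4 + 4) hint1 ?_ ?_
    · exact (Complex.measurable_ofReal.comp Hpsi_measurable).aestronglyMeasurable
    · filter_upwards with u
      rw [Complex.norm_real, Real.norm_of_nonneg (Hpsi_nonneg u)]
      exact Hpsi_le u
  have e1 : ∫ u in Ioi (0 : ℝ), ((Hpsi u - 1 : ℝ) : ℂ) * Complex.exp (-s * u) =
      (∫ u in Ioi (0 : ℝ), ((Hpsi u : ℝ) : ℂ) * Complex.exp (-s * u)) -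
        ∫ u in Ioi (0 : ℝ), Complex.exp (-s * u) := by
    rw [← integral_sub hint2 hint1]
    apply integral_congr_ae
    filter_upwards with u
    push_cast
    ring
  have e2 : ∫ u in Ioi (0 : ℝ), Complex.exp (-s * u) = 1 / s := by
    rw [integral_exp_mul_complex_Ioi (by simpa using hs)]
    simp
  have hs0 : s ≠ 0 := by rintro rfl; simp at hs
  have hs1 : 1 + s ≠ 0 := by
    intro h
    have := congrArg Complex.re h
    simp at this
    linarith
  have e3 := psi_integral hs
  rw [LSeries_eq_Aux (by simpa using hs)] at e3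
  have e4 : ∫ u in Ioi (0 : ℝ), ((Hpsi u : ℝ) : ℂ) * Complex.exp (-s * u) =
      (vonMangoldt.LFunctionResidueClassAux (1 : ZMod 1) (1 + s) + 1 / (1 + s - 1)) / (1 + s) := by
    rw [e3, mul_div_cancel_left₀ _ hs1]
  rw [e1, e2, e4]
  unfold Gfun
  have : (1 : ℂ) + s - 1 = s := by ring
  rw [this]
  field_simp
  ring

theorem Hpsi_tendsto : Tendsto Hpsi atTop (𝓝 1) :=
  tauber Hpsi_measurable Hpsi_nonneg Hpsi_le Hpsi_neg Hpsi_mono Gfun_continuousOn Hpsi_transform

/-- The prime number theorem for `ψ`. -/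
theorem psi_tendsto : Tendsto (fun x : ℝ => Chebyshev.psi x / x) atTop (𝓝 1) := by
  have h := Hpsi_tendsto.comp Real.tendsto_log_atTop
  refine h.congr' ?_
  filter_upwards [eventually_gt_atTop 0] with x hx
  simp only [Function.comp, Hpsi]
  rw [Real.exp_neg, Real.exp_log hx, div_eq_mul_inv]

/-- The prime number theorem for `θ`. -/
theorem theta_tendsto : Tendsto (fun x : ℝ => Chebyshev.theta x / x) atTop (𝓝 1) := by
  obtain ⟨C, hC⟩ := Chebyshev.psi_sub_theta_le_mul_sqrt
  have h1 : Tendsto (fun x : ℝ => (Chebyshev.psi x - Chebyshev.theta x) / x) atTop (𝓝 0) := by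
    have h2 : Tendsto (fun x : ℝ => C / Real.sqrt x) atTop (𝓝 0) :=
      tendsto_const_nhds.div_atTop Real.tendsto_sqrt_atTop
    refine squeeze_zero' ?_ ?_ h2
    · filter_upwards [eventually_gt_atTop 0] with x hx
      exact div_nonneg (sub_nonneg.mpr (Chebyshev.theta_le_psi x)) hx.le
    · filter_upwards [eventually_gt_atTop 0] with x hx
      have h3 := hC x
      have h4 : 0 < Real.sqrt x := Real.sqrt_pos.mpr hx
      rw [div_le_div_iff₀ hx h4]
      calc (Chebyshev.psi x - Chebyshev.theta x) * Real.sqrt x ≤ C * Real.sqrt x * Real.sqrt x :=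
            mul_le_mul_of_nonneg_right h3 h4.le
        _ = C * x := by rw [mul_assoc, Real.mul_self_sqrt hx.le]
  have h2 := psi_tendsto.sub h1
  rw [sub_zero] at h2
  refine h2.congr' ?_
  filter_upwards with x
  ring

end PNT
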