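import Mathlib

/-!
# The Fejer kernel and the Wiener-Ikehara argument
-/

namespace PNT

open MeasureTheory Filter Set Topology

/-- The Fejer kernel. -/
noncomputable def K (v : ℝ) : ℝ := Real.sinc (v / 2) ^ 2

lemma K_nonneg (v : ℝ) : 0 ≤ K v := sq_nonneg _

lemma K_continuous : Continuous K := by
  unfold K
  exact (Real.continuous_sinc.comp (continuous_id.div_const 2)).pow 2

lemma K_le_one (v : ℝ) : K v ≤ 1 := by
  unfold K
  have := Real.abs_sinc_le_one (v / 2)
  rw [← sq_abs]
  exact pow_le_one₀ (abs_nonneg _) this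

lemma K_eq {v : ℝ} (hv : v ≠ 0) : K v = 2 * (1 - Real.cos v) / v ^ 2 := by
  unfold K
  rw [Real.sinc_of_ne_zero (by simpa using hv), div_pow, Real.sin_sq, Real.cos_sq]
  field_simp
  ring

lemma K_le (v : ℝ) : K v ≤ 8 * (1 + v ^ 2)⁻¹ := by
  rw [← div_eq_mul_inv, le_div_iff₀ (by positivity)]
  by_cases h : v ^ 2 ≤ 7
  · have := K_le_one v
    have := K_nonneg v
    nlinarith
  · push Not at h
    have hv : v ≠ 0 := by
      rintro rfl
      norm_num at h
    rw [K_eq hv, div_mul_eq_mul_div, div_le_iff₀ (by positivity)]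
    have := Real.neg_one_le_cos v
    nlinarith

lemma K_integrable : Integrable K := by
  refine Integrable.mono' (integrable_inv_one_add_sq.const_mul 8)
    K_continuous.aestronglyMeasurable ?_
  filter_upwards with v
  rw [Real.norm_of_nonneg (K_nonneg v)]
  exact K_le v

/-- Total mass of the kernel. -/
noncomputable def kap : ℝ := ∫ v, K v

lemma kap_pos : 0 < kap := by
  unfold kap
  apply (integral_pos_iff_support_of_nonneg K_nonneg K_integrable).mpr
  have h1 : IsOpen (Function.support K) := K_continuous.isOpen_support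
  exact h1.measure_pos volume ⟨0, by simp [K]⟩

/-- The transform of the triangle function. -/
lemma transform (v : ℝ) :
    ∫ s in (-1 : ℝ)..1, ((1 - |s| : ℝ) : ℂ) * Complex.exp (Complex.I * s * v) = (K v : ℂ) := by
  have hint : ∀ a b : ℝ, IntervalIntegrable
      (fun s : ℝ => ((1 - |s| : ℝ) : ℂ) * Complex.exp (Complex.I * s * v)) volume a b := by
    intro a b
    apply Continuous.intervalIntegrable
    fun_prop
  rw [← intervalIntegral.integral_add_adjacent_intervals (hint (-1) 0) (hint 0 1)]
  have e1 : ∫ s in (-1 : ℝ)..0, ((1 - |s| : ℝ) : ℂ) * Complex.exp (Complex.I * s * v) =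
      ∫ s in (-1 : ℝ)..0, ((1 + s : ℝ) : ℂ) * Complex.exp (Complex.I * s * v) := by
    apply intervalIntegral.integral_congr
    intro s hs
    rw [uIcc_of_le (by norm_num)] at hs
    simp only
    rw [abs_of_nonpos hs.2, sub_neg_eq_add]
  have e2 : ∫ s in (0 : ℝ)..1, ((1 - |s| : ℝ) : ℂ) * Complex.exp (Complex.I * s * v) =
      ∫ s in (0 : ℝ)..1, ((1 - s : ℝ) : ℂ) * Complex.exp (Complex.I * s * v) := by
    apply intervalIntegral.integral_congr
    intro s hs
    rw [uIcc_of_le (by norm_num)] at hs
    simp only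
    rw [abs_of_nonneg hs.1]
  rw [e1, e2]
  by_cases hv : v = 0
  · subst hv
    have hK : K 0 = 1 := by simp [K]
    rw [hK]
    simp only [Complex.ofReal_zero, mul_zero, Complex.exp_zero, mul_one]
    rw [intervalIntegral.integral_ofReal, intervalIntegral.integral_ofReal]
    have h1 : ∫ s in (-1 : ℝ)..0, (1 + s) = 1 / 2 := by
      rw [intervalIntegral.integral_add (by simp) (by simp)]
      simp
      norm_num
    have h2 : ∫ s in (0 : ℝ)..1, (1 - s) = 1 / 2 := by
      rw [intervalIntegral.integral_sub (by simp) (by simp)]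
      simp
      norm_num
    rw [h1, h2]
    norm_num
  · set c : ℂ := Complex.I * v with hc
    have hc0 : c ≠ 0 := mul_ne_zero Complex.I_ne_zero (by exact_mod_cast hv)
    have hexp : ∀ s : ℝ, HasDerivAt (fun s : ℝ => Complex.exp (Complex.I * s * v))
        (c * Complex.exp (Complex.I * s * v)) s := by
      intro s
      have h1 : HasDerivAt (fun s : ℝ => Complex.I * (s : ℂ) * v) (Complex.I * 1 * v) s := by
        exact ((Complex.ofRealCLM.hasDerivAt (x := s)).const_mul Complex.I).mul_const (v : ℂ)
      have h2 := h1.cexp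
      convert h2 using 1
      rw [hc]
      ring
    have f1 : ∫ s in (-1 : ℝ)..0, ((1 + s : ℝ) : ℂ) * Complex.exp (Complex.I * s * v) =
        (1 / c - 1 / c ^ 2) + Complex.exp (-c) / c ^ 2 := by
      have hd : ∀ s ∈ uIcc (-1 : ℝ) 0, HasDerivAt
          (fun s : ℝ => ((1 + s : ℝ) : ℂ) * (Complex.exp (Complex.I * s * v) / c) -
            Complex.exp (Complex.I * s * v) / c ^ 2)
          (((1 + s : ℝ) : ℂ) * Complex.exp (Complex.I * s * v)) s := by
        intro s _
        have h1 : HasDerivAt (fun s : ℝ => ((1 + s : ℝ) : ℂ)) (1 : ℂ) s := by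
          have := (Complex.ofRealCLM.hasDerivAt (x := s)).const_add (1 : ℂ)
          simpa using this
        have h2 := (h1.mul ((hexp s).div_const c)).sub ((hexp s).div_const (c ^ 2))
        have e5 : ((1 + s : ℝ) : ℂ) * Complex.exp (Complex.I * s * v) =
            1 * (Complex.exp (Complex.I * s * v) / c) +
            ((1 + s : ℝ) : ℂ) * (c * Complex.exp (Complex.I * s * v) / c) -
            c * Complex.exp (Complex.I * s * v) / c ^ 2 := by
          field_simp
          ring
        rw [e5]
        exact h2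
      rw [intervalIntegral.integral_eq_sub_of_hasDerivAt hd
        (by apply Continuous.intervalIntegrable; fun_prop)]
      have e3 : Complex.I * ((-1 : ℝ) : ℂ) * v = -c := by rw [hc]; push_cast; ring
      rw [e3]
      simp
    have f2 : ∫ s in (0 : ℝ)..1, ((1 - s : ℝ) : ℂ) * Complex.exp (Complex.I * s * v) =
        Complex.exp c / c ^ 2 - 1 / c - 1 / c ^ 2 := by
      have hd : ∀ s ∈ uIcc (0 : ℝ) 1, HasDerivAt
          (fun s : ℝ => ((1 - s : ℝ) : ℂ) * (Complex.exp (Complex.I * s * v) / c) +
            Complex.exp (Complex.I * s * v) / c ^ 2)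
          (((1 - s : ℝ) : ℂ) * Complex.exp (Complex.I * s * v)) s := by
        intro s _
        have h1 : HasDerivAt (fun s : ℝ => ((1 - s : ℝ) : ℂ)) (-1 : ℂ) s := by
          have := (Complex.ofRealCLM.hasDerivAt (x := s)).const_sub (1 : ℂ)
          simpa using this
        have h2 := (h1.mul ((hexp s).div_const c)).add ((hexp s).div_const (c ^ 2))
        have e5 : ((1 - s : ℝ) : ℂ) * Complex.exp (Complex.I * s * v) =
            -1 * (Complex.exp (Complex.I * s * v) / c) +
            ((1 - s : ℝ) : ℂ) * (c * Complex.exp (Complex.I * s * v) / c) +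
            c * Complex.exp (Complex.I * s * v) / c ^ 2 := by
          field_simp
          ring
        rw [e5]
        exact h2
      rw [intervalIntegral.integral_eq_sub_of_hasDerivAt hd
        (by apply Continuous.intervalIntegrable; fun_prop)]
      have e3 : Complex.I * ((1 : ℝ) : ℂ) * v = c := by rw [hc]; push_cast; ring
      rw [e3]
      simp
      ring
    rw [f1, f2, K_eq hv]
    have hcos : Complex.exp c + Complex.exp (-c) = 2 * Complex.cos v := by
      rw [Complex.two_cos, hc]
      ring_nf
    have hc2 : c ^ 2 = -(v : ℂ) ^ 2 := by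
      rw [hc, mul_pow, Complex.I_sq]
      ring
    have hv2 : (v : ℂ) ≠ 0 := by exact_mod_cast hv
    push_cast
    have e4 : 1 / c - 1 / c ^ 2 + Complex.exp (-c) / c ^ 2 +
        (Complex.exp c / c ^ 2 - 1 / c - 1 / c ^ 2) =
        (Complex.exp c + Complex.exp (-c) - 2) / c ^ 2 := by
      field_simp
      ring
    rw [e4, hcos, hc2]
    field_simp
    ring

end PNT
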