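import Pool.Agent.Lib.PNT.Kernel

/-!
# The Wiener-Ikehara argument
-/

namespace PNT

open MeasureTheory Filter Set Topology

variable {H : ℝ → ℝ} {C : ℝ} {G : ℂ → ℂ}

/-- The identity for `ε > 0`. -/
lemma ident_eps (hHm : Measurable H) (hH0 : ∀ u, 0 ≤ H u) (hHC : ∀ u, H u ≤ C)
    (hGH : ∀ s : ℂ, 0 < s.re →
      ∫ u in Ioi (0 : ℝ), ((H u - 1 : ℝ) : ℂ) * Complex.exp (-s * u) = G s)
    {ε : ℝ} (hε : 0 < ε) (l y : ℝ) :
    ∫ s in (-1 : ℝ)..1, ((1 - |s| : ℝ) : ℂ) * Complex.exp (Complex.I * s * (l * y : ℝ)) *
      G (ε + Complex.I * (l * s : ℝ)) =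
    ∫ u in Ioi (0 : ℝ), (((H u - 1) * Real.exp (-ε * u) * K (l * (y - u)) : ℝ) : ℂ) := by
  rw [intervalIntegral.integral_of_le (by norm_num)]
  set f : ℝ → ℝ → ℂ := fun s u => ((1 - |s| : ℝ) : ℂ) *
    Complex.exp (Complex.I * s * (l * y : ℝ)) *
    (((H u - 1 : ℝ) : ℂ) * Complex.exp (-(ε + Complex.I * (l * s : ℝ)) * u)) with hf
  have hre : ∀ s : ℝ, ((ε : ℂ) + Complex.I * (l * s : ℝ)).re = ε := by
    intro s; simp
  have h1 : ∀ s : ℝ, ((1 - |s| : ℝ) : ℂ) * Complex.exp (Complex.I * s * (l * y : ℝ)) *
      G (ε + Complex.I * (l * s : ℝ)) = ∫ u in Ioi (0 : ℝ), f s u := by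
    intro s
    rw [← hGH _ (by rw [hre]; exact hε), hf]
    simp only
    rw [integral_const_mul]
  simp_rw [h1]
  have hInt : Integrable (Function.uncurry f)
      ((volume.restrict (Ioc (-1 : ℝ) 1)).prod (volume.restrict (Ioi (0 : ℝ)))) := by
    have hb : Integrable (fun z : ℝ × ℝ => (C + 1) * Real.exp (-ε * z.2))
        ((volume.restrict (Ioc (-1 : ℝ) 1)).prod (volume.restrict (Ioi (0 : ℝ)))) := by
      apply Integrable.comp_snd (f := fun u : ℝ => (C + 1) * Real.exp (-ε * u))
      apply Integrable.const_mul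
      exact integrableOn_exp_mul_Ioi (by linarith) 0
    refine Integrable.mono' hb ?_ ?_
    · apply Measurable.aestronglyMeasurable
      rw [hf]
      unfold Function.uncurry
      fun_prop
    · have hs : ∀ᵐ z ∂((volume.restrict (Ioc (-1 : ℝ) 1)).prod (volume.restrict (Ioi (0 : ℝ)))),
          z ∈ (Ioc (-1 : ℝ) 1) ×ˢ (Ioi (0 : ℝ)) := by
        rw [Measure.prod_restrict]
        exact ae_restrict_mem (measurableSet_Ioc.prod measurableSet_Ioi)
      filter_upwards [hs] with z hz
      obtain ⟨s, u⟩ := z
      simp only [mem_prod, mem_Ioc, mem_Ioi] at hz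
      simp only [Function.uncurry, hf, norm_mul]
      have n1 : ‖((1 - |s| : ℝ) : ℂ)‖ ≤ 1 := by
        rw [Complex.norm_real, Real.norm_eq_abs]
        have := abs_le.mpr ⟨hz.1.1.le, hz.1.2⟩
        rw [abs_of_nonneg (by linarith)]
        have := abs_nonneg s
        linarith
      have n2 : ‖Complex.exp (Complex.I * s * (l * y : ℝ))‖ = 1 := by
        rw [Complex.norm_exp]
        simp
      have n3 : ‖((H u - 1 : ℝ) : ℂ)‖ ≤ C + 1 := by
        rw [Complex.norm_real, Real.norm_eq_abs, abs_le]
        have := hH0 u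
        have := hHC u
        constructor <;> linarith
      have n4 : ‖Complex.exp (-((ε : ℂ) + Complex.I * (l * s : ℝ)) * u)‖ = Real.exp (-ε * u) := by
        rw [Complex.norm_exp]
        simp
      rw [n2, n4, mul_one]
      have hC : 0 ≤ C + 1 := le_trans (norm_nonneg _) n3
      calc ‖((1 - |s| : ℝ) : ℂ)‖ * (‖((H u - 1 : ℝ) : ℂ)‖ * Real.exp (-ε * u))
          ≤ 1 * ((C + 1) * Real.exp (-ε * u)) := by gcongr
        _ = _ := one_mul _
  rw [integral_integral_swap hInt]
  apply setIntegral_congr_fun measurableSet_Ioi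
  intro u _
  simp only
  have h2 : ∀ s : ℝ, f s u = (((H u - 1) * Real.exp (-ε * u) : ℝ) : ℂ) *
      (((1 - |s| : ℝ) : ℂ) * Complex.exp (Complex.I * s * (l * (y - u) : ℝ))) := by
    intro s
    rw [hf]
    simp only
    have e1 : Complex.exp (-((ε : ℂ) + Complex.I * (l * s : ℝ)) * u) =
        (Real.exp (-ε * u) : ℂ) * Complex.exp (-(Complex.I * s * (l * u : ℝ))) := by
      rw [Complex.ofReal_exp, ← Complex.exp_add]
      congr 1
      push_cast
      ring
    have e2 : Complex.exp (Complex.I * s * (l * (y - u) : ℝ)) =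
        Complex.exp (Complex.I * s * (l * y : ℝ)) * Complex.exp (-(Complex.I * s * (l * u : ℝ))) := by
      rw [← Complex.exp_add]
      congr 1
      push_cast
      ring
    rw [e1, e2]
    push_cast
    ring
  simp_rw [h2]
  rw [integral_const_mul, ← intervalIntegral.integral_of_le (by norm_num), transform]
  push_cast
  ring

lemma K_comp_integrable {l : ℝ} (hl : 0 < l) (y : ℝ) : Integrable (fun u => K (l * (y - u))) := by
  have h1 : Integrable (fun u => K (l * u)) := K_integrable.comp_mul_left' hl.ne'
  exact h1.comp_sub_left y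

/-- The identity at `ε = 0`. -/
lemma ident_zero (hHm : Measurable H) (hH0 : ∀ u, 0 ≤ H u) (hHC : ∀ u, H u ≤ C)
    (hG : ContinuousOn G {s | 0 ≤ s.re})
    (hGH : ∀ s : ℂ, 0 < s.re →
      ∫ u in Ioi (0 : ℝ), ((H u - 1 : ℝ) : ℂ) * Complex.exp (-s * u) = G s)
    {l : ℝ} (hl : 0 < l) (y : ℝ) :
    ∫ s in (-1 : ℝ)..1, ((1 - |s| : ℝ) : ℂ) * Complex.exp (Complex.I * s * (l * y : ℝ)) *
      G (Complex.I * (l * s : ℝ)) =
    ∫ u in Ioi (0 : ℝ), (((H u - 1) * K (l * (y - u)) : ℝ) : ℂ) := by
  -- left limit
  have hcomp : IsCompact ((fun z : ℝ × ℝ => ((z.1 : ℂ) + Complex.I * (l * z.2 : ℝ))) ''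
      ((Icc (0 : ℝ) 1) ×ˢ (Icc (-1 : ℝ) 1))) := by
    apply (isCompact_Icc.prod isCompact_Icc).image
    fun_prop
  have hsub : ((fun z : ℝ × ℝ => ((z.1 : ℂ) + Complex.I * (l * z.2 : ℝ))) ''
      ((Icc (0 : ℝ) 1) ×ˢ (Icc (-1 : ℝ) 1))) ⊆ {s : ℂ | 0 ≤ s.re} := by
    rintro _ ⟨z, hz, rfl⟩
    simp only [mem_prod, mem_Icc] at hz
    simp [hz.1.1]
  obtain ⟨M, hM⟩ := hcomp.exists_bound_of_continuousOn (hG.mono hsub)
  have hM' : ∀ ε ∈ Icc (0 : ℝ) 1, ∀ s ∈ Icc (-1 : ℝ) 1,
      ‖G (ε + Complex.I * (l * s : ℝ))‖ ≤ M := by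
    intro ε hε s hs
    exact hM _ ⟨(ε, s), ⟨hε, hs⟩, rfl⟩
  have hleft : Tendsto (fun ε : ℝ => ∫ s in (-1 : ℝ)..1, ((1 - |s| : ℝ) : ℂ) *
      Complex.exp (Complex.I * s * (l * y : ℝ)) * G (ε + Complex.I * (l * s : ℝ))) (𝓝[>] 0)
      (𝓝 (∫ s in (-1 : ℝ)..1, ((1 - |s| : ℝ) : ℂ) *
      Complex.exp (Complex.I * s * (l * y : ℝ)) * G (((0 : ℝ) : ℂ) + Complex.I * (l * s : ℝ)))) := by
    apply intervalIntegral.tendsto_integral_filter_of_dominated_convergence (fun _ => M)
    · filter_upwards [self_mem_nhdsWithin] with ε hε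
      have hε' : (0 : ℝ) < ε := hε
      apply Continuous.aestronglyMeasurable
      apply Continuous.mul (by fun_prop)
      apply hG.comp_continuous (by fun_prop)
      intro s
      simp [hε'.le]
    · filter_upwards [self_mem_nhdsWithin, mem_nhdsWithin_of_mem_nhds (Iio_mem_nhds zero_lt_one)]
        with ε hε hε1
      have hε' : (0 : ℝ) < ε := hε
      have hε1' : ε < 1 := hε1
      filter_upwards with s hs
      rw [uIoc_of_le (by norm_num)] at hs
      rw [norm_mul, norm_mul]
      have n1 : ‖((1 - |s| : ℝ) : ℂ)‖ ≤ 1 := by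
        rw [Complex.norm_real, Real.norm_eq_abs]
        have := abs_le.mpr ⟨hs.1.le, hs.2⟩
        rw [abs_of_nonneg (by linarith)]
        have := abs_nonneg s
        linarith
      have n2 : ‖Complex.exp (Complex.I * s * (l * y : ℝ))‖ = 1 := by
        rw [Complex.norm_exp]
        simp
      have n3 := hM' ε ⟨hε'.le, hε1'.le⟩ s ⟨hs.1.le, hs.2⟩
      rw [n2, mul_one]
      calc _ ≤ 1 * M := by
            gcongr
        _ = M := one_mul M
    · simp
    · filter_upwards with s hs
      apply Tendsto.const_mul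
      have h1 : ContinuousWithinAt G {s | 0 ≤ s.re} (((0 : ℝ) : ℂ) + Complex.I * (l * s : ℝ)) :=
        hG _ (by simp)
      apply h1.tendsto.comp
      apply tendsto_nhdsWithin_of_tendsto_nhds_of_eventually_within
      · apply tendsto_nhdsWithin_of_tendsto_nhds
        apply Continuous.tendsto (by fun_prop)
      · filter_upwards [self_mem_nhdsWithin] with ε hε
        have hε' : (0 : ℝ) < ε := hε
        simp [hε'.le]
  have hright : Tendsto (fun ε : ℝ =>
      ∫ u in Ioi (0 : ℝ), (((H u - 1) * Real.exp (-ε * u) * K (l * (y - u)) : ℝ) : ℂ)) (𝓝[>] 0)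
      (𝓝 (∫ u in Ioi (0 : ℝ), (((H u - 1) * K (l * (y - u)) : ℝ) : ℂ))) := by
    apply tendsto_integral_filter_of_dominated_convergence
      (fun u => (C + 1) * K (l * (y - u)))
    · filter_upwards with ε
      apply Measurable.aestronglyMeasurable
      have := K_continuous.measurable
      fun_prop
    · filter_upwards [self_mem_nhdsWithin] with ε hε
      have hε' : (0 : ℝ) < ε := hε
      filter_upwards [ae_restrict_mem measurableSet_Ioi] with u hu
      have hu' : (0 : ℝ) < u := hu
      rw [Complex.norm_real, Real.norm_eq_abs, abs_mul, abs_mul, abs_of_nonneg (K_nonneg _),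
        abs_of_nonneg (Real.exp_pos _).le]
      have n3 : |H u - 1| ≤ C + 1 := by
        rw [abs_le]
        have := hH0 u
        have := hHC u
        constructor <;> linarith
      have n4 : Real.exp (-ε * u) ≤ 1 := by
        rw [Real.exp_le_one_iff]
        nlinarith
      have hC : 0 ≤ C + 1 := le_trans (abs_nonneg _) n3
      have := K_nonneg (l * (y - u))
      calc |H u - 1| * Real.exp (-ε * u) * K (l * (y - u)) ≤ (C + 1) * 1 * K (l * (y - u)) := by
            gcongr
        _ = _ := by ring
    · apply Integrable.const_mul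
      exact (K_comp_integrable hl y).integrableOn
    · filter_upwards with u
      have : Tendsto (fun ε : ℝ => (((H u - 1) * Real.exp (-ε * u) * K (l * (y - u)) : ℝ) : ℂ))
          (𝓝[>] 0) (𝓝 (((H u - 1) * Real.exp (-0 * u) * K (l * (y - u)) : ℝ) : ℂ)) := by
        apply tendsto_nhdsWithin_of_tendsto_nhds
        exact Continuous.tendsto (by fun_prop) 0
      simpa using this
  have heq := tendsto_nhds_unique (hleft.congr' ?_) hright
  · simpa using heq
  · filter_upwards [self_mem_nhdsWithin] with ε hε
    exact ident_eps hHm hH0 hHC hGH hε l y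

/-- Riemann-Lebesgue. -/
lemma left_tendsto (G : ℂ → ℂ) {l : ℝ} (hl : 0 < l) :
    Tendsto (fun y : ℝ => ∫ s in (-1 : ℝ)..1, ((1 - |s| : ℝ) : ℂ) *
      Complex.exp (Complex.I * s * (l * y : ℝ)) * G (Complex.I * (l * s : ℝ))) atTop (𝓝 0) := by
  set f : ℝ → ℂ := (Ioc (-1 : ℝ) 1).indicator
    (fun s => ((1 - |s| : ℝ) : ℂ) * G (Complex.I * (l * s : ℝ))) with hf
  have h1 := Real.tendsto_integral_exp_smul_cocompact f
  have h2 : Tendsto (fun y : ℝ => -(l * y) / (2 * Real.pi)) atTop (cocompact ℝ) := by
    have : Tendsto (fun y : ℝ => -(l * y) / (2 * Real.pi)) atTop atBot := by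
      have h3 : Tendsto (fun y : ℝ => (l / (2 * Real.pi)) * y) atTop atTop :=
        tendsto_id.const_mul_atTop (by positivity)
      have h4 := tendsto_neg_atTop_atBot.comp h3
      refine h4.congr ?_
      intro y
      simp only [Function.comp]
      ring
    exact this.mono_right atBot_le_cocompact
  refine (h1.comp h2).congr ?_
  intro y
  simp only [Function.comp]
  rw [intervalIntegral.integral_of_le (by norm_num), ← integral_indicator measurableSet_Ioc]
  apply integral_congr_ae
  filter_upwards with s
  rw [hf]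
  by_cases hs : s ∈ Ioc (-1 : ℝ) 1
  · rw [indicator_of_mem hs, indicator_of_mem hs, Circle.smul_def, Real.fourierChar_apply,
      smul_eq_mul]
    have e : Complex.exp (((2 * Real.pi * -(s * (-(l * y) / (2 * Real.pi))) : ℝ) : ℂ) * Complex.I) =
        Complex.exp (Complex.I * s * (l * y : ℝ)) := by
      congr 1
      have : 2 * Real.pi * -(s * (-(l * y) / (2 * Real.pi))) = s * (l * y) := by
        field_simp
      rw [this]
      push_cast
      ring
    rw [e]
    ring
  · rw [indicator_of_notMem hs, indicator_of_notMem hs, smul_zero]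

/-- The smoothed averages converge. -/
lemma smooth_tendsto (hHm : Measurable H) (hH0 : ∀ u, 0 ≤ H u) (hHC : ∀ u, H u ≤ C)
    (hHneg : ∀ u ≤ 0, H u = 0)
    (hG : ContinuousOn G {s | 0 ≤ s.re})
    (hGH : ∀ s : ℂ, 0 < s.re →
      ∫ u in Ioi (0 : ℝ), ((H u - 1 : ℝ) : ℂ) * Complex.exp (-s * u) = G s)
    {l : ℝ} (hl : 0 < l) :
    Tendsto (fun y : ℝ => ∫ v, H (y - v / l) * K v) atTop (𝓝 kap) := by
  have hHint : ∀ y, Integrable (fun u => H u * K (l * (y - u))) := by
    intro y
    refine Integrable.mono' ((K_comp_integrable hl y).const_mul C) ?_ ?_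
    · apply Measurable.aestronglyMeasurable
      have := K_continuous.measurable
      fun_prop
    · filter_upwards with u
      rw [Real.norm_of_nonneg (mul_nonneg (hH0 u) (K_nonneg _))]
      exact mul_le_mul_of_nonneg_right (hHC u) (K_nonneg _)
  -- change of variables
  have hcv : ∀ y, ∫ v, H (y - v / l) * K v = l * ∫ u in Ioi (0 : ℝ), H u * K (l * (y - u)) := by
    intro y
    have e1 : ∫ u in Ioi (0 : ℝ), H u * K (l * (y - u)) = ∫ u, H u * K (l * (y - u)) := by
      apply setIntegral_eq_integral_of_forall_compl_eq_zero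
      intro u hu
      simp only [mem_Ioi, not_lt] at hu
      rw [hHneg u hu, zero_mul]
    have e2 : ∫ u, H u * K (l * (y - u)) = ∫ u, H (y - u) * K (l * u) := by
      rw [← integral_sub_left_eq_self (fun u => H u * K (l * (y - u))) volume y]
      apply integral_congr_ae
      filter_upwards with u
      rw [sub_sub_cancel]
    have e3 : ∫ u, H (y - u) * K (l * u) = l⁻¹ * ∫ v, H (y - v / l) * K v := by
      have := Measure.integral_comp_mul_left (fun v => H (y - v / l) * K v) l
      rw [abs_of_pos (inv_pos.mpr hl), smul_eq_mul] at this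
      rw [← this]
      apply integral_congr_ae
      filter_upwards with u
      rw [mul_div_cancel_left₀ _ hl.ne']
    rw [e1, e2, e3, ← mul_assoc, mul_inv_cancel₀ hl.ne', one_mul]
  -- the mass of the kernel
  have hmass : Tendsto (fun y => l * ∫ u in Ioi (0 : ℝ), K (l * (y - u))) atTop (𝓝 kap) := by
    have e1 : ∀ y, l * ∫ u in Ioi (0 : ℝ), K (l * (y - u)) = ∫ v in Iic (l * y), K v := by
      intro y
      have e2 : ∫ u in Ioi (0 : ℝ), K (l * (y - u)) =
          ∫ u, (Iic (l * y)).indicator K (l * (y - u)) := by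
        rw [← integral_indicator measurableSet_Ioi]
        apply integral_congr_ae
        have : ∀ᵐ u : ℝ, u ≠ 0 := by
          rw [ae_iff]
          simp
        filter_upwards [this] with u hu
        by_cases h : 0 < u
        · rw [indicator_of_mem (mem_Ioi.mpr h), indicator_of_mem]
          rw [mem_Iic]
          nlinarith
        · rw [indicator_of_notMem (by simpa using h), indicator_of_notMem]
          rw [mem_Iic, not_le]
          have : u < 0 := lt_of_le_of_ne (not_lt.mp h) hu
          nlinarith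
      have e3 : ∫ u, (Iic (l * y)).indicator K (l * (y - u)) =
          ∫ u, (Iic (l * y)).indicator K (l * u) := by
        exact integral_sub_left_eq_self (fun u => (Iic (l * y)).indicator K (l * u)) volume y
      rw [e2, e3, Measure.integral_comp_mul_left (fun v => (Iic (l * y)).indicator K v) l,
        abs_of_pos (inv_pos.mpr hl), smul_eq_mul, ← mul_assoc, mul_inv_cancel₀ hl.ne', one_mul,
        integral_indicator measurableSet_Iic]
    simp_rw [e1]
    have h1 : Tendsto (fun y : ℝ => l * y) atTop atTop := tendsto_id.const_mul_atTop hl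
    have h2 : Tendsto (fun b : ℝ => ∫ v in Iic b, K v) atTop (𝓝 (∫ v, K v)) := by
      have := (MeasureTheory.aecover_Iic (μ := (volume : Measure ℝ)) (l := atTop)
        (b := fun x : ℝ => x) tendsto_id).integral_tendsto_of_countably_generated K_integrable
      exact this
    exact h2.comp h1
  -- the difference tends to zero
  have hdiff : Tendsto (fun y => ∫ u in Ioi (0 : ℝ), (H u - 1) * K (l * (y - u))) atTop (𝓝 0) := by
    have h1 := left_tendsto G hl
    have h2 : Tendsto (fun y => ∫ u in Ioi (0 : ℝ), (((H u - 1) * K (l * (y - u)) : ℝ) : ℂ)) atTop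
        (𝓝 0) := by
      refine h1.congr ?_
      intro y
      exact ident_zero hHm hH0 hHC hG hGH hl y
    have h3 := (Complex.continuous_re.tendsto 0).comp h2
    refine h3.congr ?_
    intro y
    simp only [Function.comp]
    rw [integral_complex_ofReal, Complex.ofReal_re]
  have hfin := (hdiff.const_mul l).add hmass
  rw [mul_zero, zero_add] at hfin
  refine hfin.congr ?_
  intro y
  rw [hcv, ← mul_add, ← integral_add]
  · congr 1
    apply setIntegral_congr_fun measurableSet_Ioi
    intro u _
    simp only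
    ring
  · have : (fun u => (H u - 1) * K (l * (y - u))) =
        fun u => H u * K (l * (y - u)) - K (l * (y - u)) := by
      funext u; ring
    rw [this]
    exact ((hHint y).sub (K_comp_integrable hl y)).integrableOn
  · exact (K_comp_integrable hl y).integrableOn

/-- The Tauberian theorem. -/
theorem tauber (hHm : Measurable H) (hH0 : ∀ u, 0 ≤ H u) (hHC : ∀ u, H u ≤ C)
    (hHneg : ∀ u ≤ 0, H u = 0)
    (hmono : ∀ u v, u ≤ v → H u * Real.exp u ≤ H v * Real.exp v)
    (hG : ContinuousOn G {s | 0 ≤ s.re})
    (hGH : ∀ s : ℂ, 0 < s.re →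
      ∫ u in Ioi (0 : ℝ), ((H u - 1 : ℝ) : ℂ) * Complex.exp (-s * u) = G s) :
    Tendsto H atTop (𝓝 1) := by
  have hsm : ∀ l : ℝ, 0 < l → Tendsto (fun y : ℝ => ∫ v, H (y - v / l) * K v) atTop (𝓝 kap) :=
    fun l hl => smooth_tendsto hHm hH0 hHC hHneg hG hGH hl
  have hC0 : 0 ≤ C := le_trans (hH0 0) (hHC 0)
  have hkap := kap_pos
  have hint : ∀ l y : ℝ, Integrable (fun v => H (y - v / l) * K v) := by
    intro l y
    refine Integrable.mono' (K_integrable.const_mul C) ?_ ?_
    · apply Measurable.aestronglyMeasurable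
      have := K_continuous.measurable
      fun_prop
    · filter_upwards with u
      rw [Real.norm_of_nonneg (mul_nonneg (hH0 _) (K_nonneg _))]
      exact mul_le_mul_of_nonneg_right (hHC _) (K_nonneg _)
  -- truncated mass
  have hkR : Tendsto (fun R : ℝ => ∫ v in Icc (-R) R, K v) atTop (𝓝 kap) := by
    have := (MeasureTheory.aecover_Icc (μ := (volume : Measure ℝ)) (l := atTop)
      (a := fun x : ℝ => -x) (b := fun x : ℝ => x) tendsto_neg_atTop_atBot
      tendsto_id).integral_tendsto_of_countably_generated K_integrable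
    exact this
  have hexp : ∀ R : ℝ, Tendsto (fun l : ℝ => Real.exp (2 * R / l)) atTop (𝓝 1) := by
    intro R
    have h1 : Tendsto (fun l : ℝ => 2 * R / l) atTop (𝓝 0) := tendsto_const_nhds.div_atTop tendsto_id
    have := (Real.continuous_exp.tendsto 0).comp h1
    rw [Real.exp_zero] at this
    exact this
  -- pointwise bounds
  have hup : ∀ l R z : ℝ, 0 < l → 0 ≤ R → H z * ∫ v in Icc (-R) R, K v ≤
      Real.exp (2 * R / l) * ∫ v, H (z + R / l - v / l) * K v := by
    intro l R z hl hR
    have h1 : ∫ v in Icc (-R) R, H z * K v ≤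
        ∫ v in Icc (-R) R, Real.exp (2 * R / l) * (H (z + R / l - v / l) * K v) := by
      apply setIntegral_mono_on (K_integrable.const_mul _).integrableOn
        ((hint l (z + R / l)).const_mul _).integrableOn measurableSet_Icc
      intro v hv
      rw [← mul_assoc]
      apply mul_le_mul_of_nonneg_right _ (K_nonneg v)
      have h2 : z ≤ z + R / l - v / l := by
        have : v / l ≤ R / l := by gcongr; exact hv.2
        linarith
      have h3 := hmono _ _ h2
      have h4 : Real.exp (z + R / l - v / l) ≤ Real.exp (2 * R / l) * Real.exp z := by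
        rw [← Real.exp_add]
        apply Real.exp_le_exp.mpr
        have : -(v / l) ≤ R / l := by
          rw [← neg_div]
          gcongr
          linarith [hv.1]
        have : 2 * R / l = R / l + R / l := by ring
        linarith
      have h5 : H z * Real.exp z ≤ Real.exp (2 * R / l) * H (z + R / l - v / l) * Real.exp z := by
        calc H z * Real.exp z ≤ H (z + R / l - v / l) * Real.exp (z + R / l - v / l) := h3
          _ ≤ H (z + R / l - v / l) * (Real.exp (2 * R / l) * Real.exp z) :=
              mul_le_mul_of_nonneg_left h4 (hH0 _)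
          _ = _ := by ring
      exact le_of_mul_le_mul_right h5 (Real.exp_pos z)
    rw [integral_const_mul, integral_const_mul] at h1
    refine h1.trans ?_
    apply mul_le_mul_of_nonneg_left _ (Real.exp_pos _).le
    apply setIntegral_le_integral (hint l _)
    filter_upwards with v
    exact mul_nonneg (hH0 _) (K_nonneg _)
  have hlo : ∀ l R z : ℝ, 0 < l → 0 ≤ R → ∫ v, H (z - R / l - v / l) * K v ≤
      H z * Real.exp (2 * R / l) * kap + C * (kap - ∫ v in Icc (-R) R, K v) := by
    intro l R z hl hR
    rw [← integral_add_compl (measurableSet_Icc (a := -R) (b := R)) (hint l (z - R / l))]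
    have h1 : ∫ v in Icc (-R) R, H (z - R / l - v / l) * K v ≤
        H z * Real.exp (2 * R / l) * kap := by
      calc _ ≤ ∫ v in Icc (-R) R, H z * Real.exp (2 * R / l) * K v := by
            apply setIntegral_mono_on (hint l _).integrableOn
              (K_integrable.const_mul _).integrableOn measurableSet_Icc
            intro v hv
            apply mul_le_mul_of_nonneg_right _ (K_nonneg v)
            have h2 : z - R / l - v / l ≤ z := by
              have : -(v / l) ≤ R / l := by
                rw [← neg_div]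
                gcongr
                linarith [hv.1]
              linarith
            have h3 := hmono _ _ h2
            have h4 : Real.exp z ≤ Real.exp (2 * R / l) * Real.exp (z - R / l - v / l) := by
              rw [← Real.exp_add]
              apply Real.exp_le_exp.mpr
              have : v / l ≤ R / l := by gcongr; exact hv.2
              have : 2 * R / l = R / l + R / l := by ring
              linarith
            have h5 : H (z - R / l - v / l) * Real.exp (z - R / l - v / l) ≤
                H z * Real.exp (2 * R / l) * Real.exp (z - R / l - v / l) := by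
              calc _ ≤ H z * Real.exp z := h3
                _ ≤ H z * (Real.exp (2 * R / l) * Real.exp (z - R / l - v / l)) :=
                  mul_le_mul_of_nonneg_left h4 (hH0 _)
                _ = _ := by ring
            exact le_of_mul_le_mul_right h5 (Real.exp_pos _)
        _ = H z * Real.exp (2 * R / l) * ∫ v in Icc (-R) R, K v := by rw [integral_const_mul]
        _ ≤ H z * Real.exp (2 * R / l) * kap := by
            apply mul_le_mul_of_nonneg_left _ (mul_nonneg (hH0 _) (Real.exp_pos _).le)
            apply setIntegral_le_integral K_integrable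
            filter_upwards with v
            exact K_nonneg _
    have h2 : ∫ v in (Icc (-R) R)ᶜ, H (z - R / l - v / l) * K v ≤
        C * (kap - ∫ v in Icc (-R) R, K v) := by
      have h3 : kap - ∫ v in Icc (-R) R, K v = ∫ v in (Icc (-R) R)ᶜ, K v := by
        have := integral_add_compl (measurableSet_Icc (a := -R) (b := R)) K_integrable
        unfold kap
        linarith
      rw [h3, ← integral_const_mul]
      apply setIntegral_mono_on (hint l _).integrableOn
        (K_integrable.const_mul _).integrableOn measurableSet_Icc.compl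
      intro v _
      exact mul_le_mul_of_nonneg_right (hHC _) (K_nonneg v)
    linarith
  rw [tendsto_order]
  constructor
  · -- lower bound
    intro a ha
    -- choose R
    have h1 : Tendsto (fun R : ℝ => (kap - C * (kap - ∫ v in Icc (-R) R, K v))) atTop
        (𝓝 (kap - C * (kap - kap))) := (tendsto_const_nhds.sub ((tendsto_const_nhds.sub hkR).const_mul C))
    rw [sub_self, mul_zero, sub_zero] at h1
    have h2 : a * kap < kap := by nlinarith
    obtain ⟨R, hR, hR0⟩ := ((h1.eventually (lt_mem_nhds h2)).and (eventually_ge_atTop 0)).exists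
    -- choose l
    have h3 : Tendsto (fun l : ℝ => a * Real.exp (2 * R / l) * kap) atTop (𝓝 (a * 1 * kap)) :=
      ((hexp R).const_mul a).mul_const kap
    rw [mul_one] at h3
    obtain ⟨l, hl, hl0⟩ := ((h3.eventually (gt_mem_nhds hR)).and (eventually_gt_atTop 0)).exists
    have h4 : Tendsto (fun z : ℝ => ∫ v, H (z - R / l - v / l) * K v) atTop (𝓝 kap) :=
      (hsm l hl0).comp (tendsto_atTop_add_const_right _ (-(R / l)) tendsto_id)
    have h5 : a * Real.exp (2 * R / l) * kap + C * (kap - ∫ v in Icc (-R) R, K v) < kap := by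
      linarith
    filter_upwards [h4.eventually (lt_mem_nhds h5)] with z hz
    have h6 := hlo l R z hl0 hR0
    have h7 : a * Real.exp (2 * R / l) * kap < H z * Real.exp (2 * R / l) * kap := by linarith
    have h8 := lt_of_mul_lt_mul_right h7 hkap.le
    exact lt_of_mul_lt_mul_right h8 (Real.exp_pos _).le
  · -- upper bound
    intro a ha
    have h1 : Tendsto (fun R : ℝ => a * ∫ v in Icc (-R) R, K v) atTop (𝓝 (a * kap)) :=
      hkR.const_mul a
    have h2 : kap < a * kap := by nlinarith
    obtain ⟨R, hR, hR0⟩ := ((h1.eventually (lt_mem_nhds h2)).and (eventually_ge_atTop 0)).exists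
    have h3 : Tendsto (fun l : ℝ => Real.exp (2 * R / l) * kap) atTop (𝓝 (1 * kap)) :=
      (hexp R).mul_const kap
    rw [one_mul] at h3
    obtain ⟨l, hl, hl0⟩ := ((h3.eventually (gt_mem_nhds hR)).and (eventually_gt_atTop 0)).exists
    have h4 : Tendsto (fun z : ℝ => Real.exp (2 * R / l) * ∫ v, H (z + R / l - v / l) * K v) atTop
        (𝓝 (Real.exp (2 * R / l) * kap)) :=
      ((hsm l hl0).comp (tendsto_atTop_add_const_right _ (R / l) tendsto_id)).const_mul _
    filter_upwards [h4.eventually (gt_mem_nhds hl)] with z hz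
    have h6 := hup l R z hl0 hR0
    have hpos : 0 < ∫ v in Icc (-R) R, K v := by
      by_contra hneg
      push Not at hneg
      have : a * ∫ v in Icc (-R) R, K v ≤ 0 := mul_nonpos_of_nonneg_of_nonpos (by linarith) hneg
      linarith
    exact lt_of_mul_lt_mul_right (lt_of_le_of_lt h6 hz) hpos.le

end PNT
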